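import Pool.Agent.H13.TFG.Final

/-!
# Topological full groups and the Farrell-Jones conjecture for A-theory

Let `T` be a homeomorphism of a compact Hausdorff totally disconnected space `X` which is minimal (`X` infinite, every
orbit dense), or, more generally, has a point which is not periodic and lies in the closure of every forward and of
every backward orbit. Then all subgroups of the topological full group `[[T]]` belong to every class of groups which
contains the right-angled Artin groups of finite graphs and is closed under isomorphism, subgroups, overgroups of
finite index and directed colimits. The class of the groups satisfying the Farrell-Jones conjecture for A-theory with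
coefficients and finite wreath products is such a class.

Proof: for a clopen neighbourhood `B` of the point let `A` be the group of the permutations moving every point inside
its piece of orbit between two visits of `B`, and `Γ` the graph of the clopen sets which meet every such piece in
exactly one point, two of them adjacent if they are disjoint. `A` is locally finite and acts on `RAAG Γ`, and `[[T]]`
is the directed colimit of the groups `RAAG Γ ⋊ A`; a generator `E` of `RAAG Γ` is mapped to the first return map of
`T` on `E`. The relations of `[[T]]` hold in `RAAG Γ ⋊ A` for some smaller `B`, because there the translates of `B`
by small powers of `T` are pairwise disjoint sections.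
-/

set_option autoImplicit false

namespace Pool.Agent.H13.TFG.Results.TopologicalFullGroups

open Pool.Agent.H13.TFG

theorem result (C : (G : Type) → [Group G] → Prop) (hC : RaagClass C)
    (X : Type) [TopologicalSpace X] [CompactSpace X] [T2Space X] [TotallyDisconnectedSpace X]
    (T : X ≃ₜ X)
    (hT : EssMinimal T ∨ (Infinite X ∧ ∀ x, Dense (Set.range fun n : ℤ => (T ^ n) x)))
    (H : Subgroup (FullGroup T)) : C H := by
  rcases hT with hT | ⟨hX, hT⟩
  · exact full_mem hC T hT H
  · exact full_mem hC T (essMinimal_of_minimal T hT) H

end Pool.Agent.H13.TFG.Results.TopologicalFullGroups
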